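import Mathlib

set_option autoImplicit false

namespace Pool.Agent.Results.MP_d5c8f2_an.NotEmbeddable

open Filter Topology

/-- `T` is the time one operator of a strongly continuous one parameter semigroup. -/
def Embeddable {H : Type*} [NormedAddCommGroup H] [InnerProductSpace ℂ H] (T : H →L[ℂ] H) : Prop :=
  ∃ S : ℝ → H →L[ℂ] H, S 0 = ContinuousLinearMap.id ℂ H ∧
    (∀ s t, 0 ≤ s → 0 ≤ t → S (s + t) = (S s).comp (S t)) ∧
    (∀ x, ContinuousOn (fun t => S t x) (Set.Ici 0)) ∧ S 1 = T

/-- `T` is isometric on the orthogonal complement of its kernel. -/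
def IsPartialIsometry {H : Type*} [NormedAddCommGroup H] [InnerProductSpace ℂ H]
    (T : H →L[ℂ] H) : Prop :=
  ∀ x ∈ (LinearMap.ker (T : H →ₗ[ℂ] H))ᗮ, ‖T x‖ = ‖x‖

/-- The kernel is infinite dimensional. -/
def InfKer {H : Type*} [NormedAddCommGroup H] [InnerProductSpace ℂ H] (T : H →L[ℂ] H) : Prop :=
  ¬ FiniteDimensional ℂ (LinearMap.ker (T : H →ₗ[ℂ] H))

/-- The orthogonal complement of the range is infinite dimensional. -/
def InfCoker {H : Type*} [NormedAddCommGroup H] [InnerProductSpace ℂ H] (T : H →L[ℂ] H) : Prop :=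
  ¬ FiniteDimensional ℂ ((LinearMap.range (T : H →ₗ[ℂ] H))ᗮ : Submodule ℂ H)

/-- The Hilbert space of square summable sequences. -/
noncomputable abbrev H := lp (fun _ : ℕ => ℂ) 2

noncomputable def e (n : ℕ) : H := lp.single 2 n (1 : ℂ)

/-- The rank one operator `x ↦ ⟨e 1, x⟩ e 0`. -/
noncomputable def T : H →L[ℂ] H := (innerSL ℂ (e 1)).smulRight (e 0)

lemma T_apply (x : H) : T x = (x 1) • e 0 := by
  simp only [T, ContinuousLinearMap.smulRight_apply, innerSL_apply_apply]
  rw [e, lp.inner_single_left]; simp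

lemma e_apply (m n : ℕ) : (e m : H) n = if n = m then 1 else 0 := by
  by_cases h : n = m
  · subst h; simp [e]
  · simp [e, h]

lemma e_ne (n : ℕ) : (e n : H) ≠ 0 := by
  intro h
  have := congrArg (fun x : H => x n) h
  simp [e_apply] at this

lemma T_e1 : T (e 1) = e 0 := by rw [T_apply, e_apply]; simp

lemma T_e0 : T (e 0) = 0 := by rw [T_apply, e_apply]; simp

lemma inner_e (n : ℕ) (x : H) : inner ℂ (e n) x = x n := by
  rw [e, lp.inner_single_left]; simp

lemma T_partial : IsPartialIsometry T := by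
  intro x hx
  -- x is a multiple of e 1
  have h1 : ∀ n, n ≠ 1 → x n = 0 := by
    intro n hn
    have hk : e n ∈ LinearMap.ker (T : H →ₗ[ℂ] H) := by
      rw [LinearMap.mem_ker]
      change T (e n) = 0
      rw [T_apply, e_apply, if_neg (Ne.symm hn), zero_smul]
    have := (Submodule.mem_orthogonal _ _).1 hx _ hk
    rwa [inner_e] at this
  have h2 : x = (x 1) • e 1 := by
    ext n
    rw [lp.coeFn_smul, Pi.smul_apply, e_apply]
    by_cases hn : n = 1
    · subst hn; simp
    · rw [h1 n hn]; simp [hn]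
  have hn : ∀ n, ‖(e n : H)‖ = 1 := fun n => by simp [e, lp.norm_single]
  rw [T_apply, norm_smul, hn]
  conv_rhs => rw [h2]
  rw [norm_smul, hn]

lemma not_emb : ¬ Embeddable T := by
  rintro ⟨S, h0, hadd, hcont, h1⟩
  -- S s maps e 0 to a multiple of itself
  have hcomm : ∀ s, 0 ≤ s → ∀ x, S s (T x) = T (S s x) := by
    intro s hs x
    have e1 := hadd s 1 hs zero_le_one
    have e2 := hadd 1 s zero_le_one hs
    rw [add_comm] at e1
    rw [e1, h1] at e2
    exact congrArg (fun L : H →L[ℂ] H => L x) e2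
  have hc : ∀ s, 0 ≤ s → S s (e 0) = (S s (e 1) 1) • e 0 := by
    intro s hs
    rw [← T_e1, hcomm s hs, T_apply, T_e1]
  set c : ℝ → ℂ := fun s => S s (e 0) 0 with hcdef
  have hc' : ∀ s, 0 ≤ s → S s (e 0) = c s • e 0 := by
    intro s hs
    have h2 := hc s hs
    have h3 : c s = (S s (e 1) 1) := by
      simp only [hcdef]
      rw [h2, lp.coeFn_smul, Pi.smul_apply, e_apply]; simp
    rw [h3]; exact h2
  have hmul : ∀ s t, 0 ≤ s → 0 ≤ t → c (s + t) = c s * c t := by
    intro s t hs ht
    have h2 : S (s + t) (e 0) = (c s * c t) • e 0 := by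
      rw [hadd s t hs ht, ContinuousLinearMap.comp_apply, hc' t ht, map_smul, hc' s hs, smul_smul,
        mul_comm]
    simp only [hcdef] at *
    rw [h2, lp.coeFn_smul, Pi.smul_apply, e_apply]; simp
  have hc0 : c 0 = 1 := by
    simp only [hcdef]; rw [h0]; simp [e_apply]
  have hc1 : c 1 = 0 := by
    simp only [hcdef]; rw [h1, T_e0]; rfl
  -- continuity at zero
  have hcc : ContinuousOn c (Set.Ici 0) := by
    have : c = fun s => inner ℂ (e 0) (S s (e 0)) := by
      funext s; rw [inner_e]
    rw [this]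
    exact (innerSL ℂ (e 0)).continuous.comp_continuousOn (hcont (e 0))
  have hhalf : ∀ n : ℕ, c ((1 / 2 : ℝ) ^ n) = 0 := by
    intro n
    induction n with
    | zero => simpa using hc1
    | succ n ih =>
      have h2 := hmul ((1 / 2 : ℝ) ^ (n + 1)) ((1 / 2 : ℝ) ^ (n + 1)) (by positivity) (by positivity)
      have h3 : (1 / 2 : ℝ) ^ (n + 1) + (1 / 2 : ℝ) ^ (n + 1) = (1 / 2 : ℝ) ^ n := by ring
      rw [h3, ih] at h2
      have := h2.symm
      rcases mul_eq_zero.1 this with h | h <;> exact h
  have hlim : Tendsto (fun n : ℕ => c ((1 / 2 : ℝ) ^ n)) atTop (𝓝 (c 0)) := by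
    have h2 : Tendsto (fun n : ℕ => (1 / 2 : ℝ) ^ n) atTop (𝓝[Set.Ici 0] 0) := by
      refine tendsto_nhdsWithin_iff.2 ⟨tendsto_pow_atTop_nhds_zero_of_lt_one (by norm_num) (by norm_num), ?_⟩
      exact Eventually.of_forall fun n => by
        change (0:ℝ) ≤ (1 / 2 : ℝ) ^ n; positivity
    exact (hcc 0 (Set.mem_Ici.2 le_rfl)).tendsto.comp h2
  simp only [hhalf] at hlim
  rw [hc0] at hlim
  have := tendsto_nhds_unique hlim tendsto_const_nhds
  exact one_ne_zero this

/-- kernel and cokernel of `T` are infinite dimensional -/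
lemma infinite_of (M : Submodule ℂ H) (h : ∀ n : ℕ, 2 ≤ n → e n ∈ M) : ¬ FiniteDimensional ℂ M := by
  intro hfd
  let v : ℕ → M := fun n => ⟨e (n + 2), h (n + 2) (by omega)⟩
  have hli : LinearIndependent ℂ v := by
    have h1 : LinearIndependent ℂ (fun n : ℕ => (e (n + 2) : H)) := by
      have hort : Orthonormal ℂ (fun n : ℕ => (e (n + 2) : H)) := by
        rw [orthonormal_iff_ite]
        intro i j
        rw [inner_e, e_apply]
        simp
      exact hort.linearIndependent
    exact LinearIndependent.of_comp M.subtype h1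
  exact absurd hli.finite (by exact not_finite_iff_infinite.2 inferInstance)

/-- There is a partial isometry on a Hilbert space with infinite dimensional kernel and cokernel
that is not embeddable in a strongly continuous semigroup. -/
theorem result : ∃ (H : Type) (_ : NormedAddCommGroup H) (_ : InnerProductSpace ℂ H)
    (_ : CompleteSpace H) (T : H →L[ℂ] H),
    IsPartialIsometry T ∧ InfKer T ∧ InfCoker T ∧ ¬ Embeddable T := by
  refine ⟨H, inferInstance, inferInstance, inferInstance, T, T_partial, infinite_of _ ?_,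
    infinite_of _ ?_, not_emb⟩
  · intro n hn
    rw [LinearMap.mem_ker]
    change T (e n) = 0
    rw [T_apply, e_apply, if_neg (by omega), zero_smul]
  · intro n hn
    rw [Submodule.mem_orthogonal]
    rintro _ ⟨x, rfl⟩
    change inner ℂ (T x) (e n) = 0
    rw [T_apply, inner_smul_left, inner_e, e_apply, if_neg (by omega), mul_zero]

end Pool.Agent.Results.MP_d5c8f2_an.NotEmbeddable
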